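import Mathlib

namespace Pool.Agent.Results.MP_0c7c8f_al.NoFinest

open Filter Topology Finset

/-- the strictly increasing maps of the naturals -/
def E : Type := {f : ℕ → ℕ // StrictMono f}

/-- composition of maps -/
def comp (f g : E) : E := ⟨f.1 ∘ g.1, f.2.comp g.2⟩

/-- Polish semigroup topologies on the monoid of strictly increasing maps -/
def IsPST (T : TopologicalSpace E) : Prop :=
  @PolishSpace E T ∧
    @Continuous (E × E) E (@instTopologicalSpaceProd E E T T) T (fun p => comp p.1 p.2)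

theorem gdelta {X : Type} [TopologicalSpace X] [PolishSpace X] {s : Set X} (hs : IsGδ s) :
    PolishSpace s := by
  obtain ⟨U, hU, rfl⟩ := isGδ_iff_eq_iInter_nat.mp hs
  have := fun n => (hU n).polishSpace
  let f : (⋂ n, U n : Set X) → ∀ n, U n := fun x n => ⟨x.1, Set.mem_iInter.mp x.2 n⟩
  have hc : Continuous f := continuous_pi fun n => continuous_subtype_val.subtype_mk _
  have cv : ∀ n, Continuous fun y : ∀ n, U n => (y n).1 := fun n =>
    continuous_subtype_val.comp (continuous_apply n)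
  have he : IsEmbedding f := IsEmbedding.of_comp hc (cv 0) IsEmbedding.subtypeVal
  have hr : Set.range f = ⋂ n, {y | (y n).1 = (y 0).1} := by
    ext y
    simp only [Set.mem_range, Set.mem_iInter, Set.mem_ofPred_eq]
    constructor
    · rintro ⟨x, rfl⟩ n; rfl
    · intro h
      exact ⟨⟨(y 0).1, Set.mem_iInter.mpr fun n => h n ▸ (y n).2⟩,
        funext fun n => Subtype.ext (h n).symm⟩
  exact IsClosedEmbedding.polishSpace ⟨he, hr ▸ isClosed_iInter fun n => isClosed_eq (cv n) (cv 0)⟩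

structure Adm (μ : ℕ → ℝ) : Prop where
  low : ∀ m : ℕ, 1 / ((m : ℝ) + 1) ^ 2 ≤ μ m
  dbl : ∀ n m : ℕ, m ≤ 2 * n + 1 → μ n ≤ 4 * μ m

noncomputable def d (μ : ℕ → ℝ) (h : E) (n : ℕ) : ℝ := μ n * ((h.1 n : ℝ) - n)

open Classical in
noncomputable def φ (μ : ℕ → ℝ) (h : E) : ℝ := if Summable (d μ h) then ∑' n, d μ h n else -1

variable {μ : ℕ → ℝ}

theorem Adm.pos (a : Adm μ) (n : ℕ) : 0 ≤ μ n := le_trans (by positivity) (a.low n)

theorem Adm.d0 (a : Adm μ) (h : E) (n : ℕ) : 0 ≤ d μ h n :=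
  mul_nonneg (a.pos n) (sub_nonneg.mpr (by exact_mod_cast h.2.le_apply))

theorem Adm.fac (a : Adm μ) {g h : E} (hs : Summable (d μ (comp g h))) :
    Summable (d μ g) ∧ Summable (d μ h) := by
  constructor
  · refine hs.of_nonneg_of_le (a.d0 g) fun n => mul_le_mul_of_nonneg_left ?_ (a.pos n)
    have : g.1 n ≤ g.1 (h.1 n) := g.2.monotone h.2.le_apply
    exact sub_le_sub_right (by exact_mod_cast this) _
  · refine hs.of_nonneg_of_le (a.d0 h) fun n => mul_le_mul_of_nonneg_left ?_ (a.pos n)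
    have : h.1 n ≤ g.1 (h.1 n) := g.2.le_apply
    exact sub_le_sub_right (by exact_mod_cast this) _

theorem Adm.grow (a : Adm μ) {h : E} (hs : Summable (d μ h)) {K : ℕ}
    (ht : ∑' n, d μ h (n + K) < 1 / 4) (n : ℕ) : h.1 (n + K) ≤ 2 * (n + K) + 1 := by
  by_contra hc
  have h1 := ((summable_nat_add_iff K).mpr hs).sum_le_tsum (Ico n (n + (n + K + 1)))
    (fun i _ => a.d0 h _)
  have h2 : ∑ i ∈ Ico n (n + (n + K + 1)), ((n + K + 1 : ℝ) / (2 * (n + K + 1)) ^ 2) ≤
      ∑ i ∈ Ico n (n + (n + K + 1)), d μ h (i + K) := by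
    apply Finset.sum_le_sum
    intro i hi
    rw [Finset.mem_Ico] at hi
    obtain ⟨j, rfl⟩ := Nat.exists_eq_add_of_le hi.1
    have b1 := h.2.add_le_nat j (n + K)
    have b2 : ((n + K + 1 : ℕ) : ℝ) + ((n + j + K : ℕ) : ℝ) ≤ h.1 (n + j + K) := by
      have : (n + K + 1) + (n + j + K) ≤ h.1 (n + j + K) := by
        rw [show j + (n + K) = n + j + K by ring] at b1; omega
      exact_mod_cast this
    have b3 : ((n + j + K : ℕ) : ℝ) + 1 ≤ 2 * (n + K + 1) := by
      have : n + j + K + 1 ≤ 2 * (n + K + 1) := by omega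
      exact_mod_cast this
    have b4 : 1 / (2 * (n + K + 1) : ℝ) ^ 2 ≤ μ (n + j + K) :=
      le_trans (by gcongr) (a.low _)
    unfold d
    rw [div_eq_mul_one_div, mul_comm]
    push_cast at b2 ⊢
    exact mul_le_mul b4 (by linarith) (by positivity) (a.pos _)
  rw [Finset.sum_const, Nat.card_Ico, Nat.add_sub_cancel_left, nsmul_eq_mul] at h2
  have h3 : ((n + K + 1 : ℕ) : ℝ) * ((n + K + 1 : ℝ) / (2 * (n + K + 1)) ^ 2) = 1 / 4 := by
    push_cast; field_simp; norm_num
  linarith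

theorem Adm.tail (a : Adm μ) {g h : E} (hg : Summable (d μ g)) (hs : Summable (d μ h)) {K : ℕ}
    (ht : ∑' n, d μ h (n + K) < 1 / 4) : Summable (d μ (comp g h)) ∧
      ∑' n, d μ (comp g h) (n + K) ≤ 4 * ∑' n, d μ g (n + K) + ∑' n, d μ h (n + K) := by
  have inj : Function.Injective fun n => h.1 (n + K) - K := by
    intro n m e
    have b1 : n + K ≤ h.1 (n + K) := h.2.le_apply
    have b2 : m + K ≤ h.1 (m + K) := h.2.le_apply
    have : h.1 (n + K) = h.1 (m + K) := by simp only at e; omega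
    have := h.2.injective this
    omega
  have g1 := (summable_nat_add_iff K).mpr hg
  have s1 := (summable_nat_add_iff K).mpr hs
  have g2 := g1.comp_injective inj
  have g3 := tsum_comp_le_tsum_of_inj g1 (fun n => a.d0 g _) inj
  have le : ∀ n, d μ (comp g h) (n + K) ≤
      4 * ((fun n => d μ g (n + K)) ∘ fun n => h.1 (n + K) - K) n + d μ h (n + K) := by
    intro n
    have b1 : n + K ≤ h.1 (n + K) := h.2.le_apply
    have b2 := a.dbl _ _ (a.grow hs ht n)
    have b3 : (0 : ℝ) ≤ (g.1 (h.1 (n + K)) : ℝ) - h.1 (n + K) :=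
      sub_nonneg.mpr (by exact_mod_cast g.2.le_apply)
    simp only [Function.comp, d, comp, Nat.sub_add_cancel (show K ≤ h.1 (n + K) by omega)]
    nlinarith [mul_le_mul_of_nonneg_right b2 b3]
  have c1 := ((g2.mul_left 4).add s1).of_nonneg_of_le (fun n => a.d0 _ _) le
  refine ⟨(summable_nat_add_iff K).mp c1, (c1.tsum_le_tsum le ((g2.mul_left 4).add s1)).trans ?_⟩
  rw [(g2.mul_left 4).tsum_add s1, tsum_mul_left]
  linarith

theorem Adm.iff (a : Adm μ) (h : E) : Summable (d μ h) ↔ -1 / 2 < φ μ h := by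
  unfold φ
  split_ifs with hs
  · simp only [hs, true_iff]
    exact lt_of_lt_of_le (by norm_num) (tsum_nonneg (a.d0 h))
  · simp only [hs, false_iff]; norm_num

theorem split {h : E} (hs : Summable (d μ h)) (K : ℕ) :
    ∑' n, d μ h (n + K) = φ μ h - ∑ n ∈ range K, d μ h n := by
  rw [φ, if_pos hs, ← hs.sum_add_tsum_nat_add K]; ring

theorem evs {ι : Type} {l : Filter ι} {G : ι → E} {g : E}
    (h1 : ∀ n, ∀ᶠ i in l, (G i).1 n = g.1 n) (K : ℕ) :
    ∀ᶠ i in l, ∑ n ∈ range K, d μ (G i) n = ∑ n ∈ range K, d μ g n := by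
  filter_upwards [(Finset.eventually_all (range K)).mpr fun n _ => h1 n] with i hi
  exact Finset.sum_congr rfl fun n hn => by simp only [d, hi n hn]

theorem Adm.evt (a : Adm μ) {ι : Type} {l : Filter ι} {G : ι → E} {g : E}
    (h1 : ∀ n, ∀ᶠ i in l, (G i).1 n = g.1 n) (h3 : Tendsto (fun i => φ μ (G i)) l (𝓝 (φ μ g)))
    (hg : Summable (d μ g)) {K : ℕ} {ε : ℝ} (ht : ∑' n, d μ g (n + K) < ε) :
    ∀ᶠ i in l, Summable (d μ (G i)) ∧ ∑' n, d μ (G i) (n + K) < ε := by
  rw [split hg, sub_lt_iff_lt_add] at ht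
  filter_upwards [h3.eventually (lt_mem_nhds ((a.iff g).mp hg)), h3.eventually (gt_mem_nhds ht),
    evs (μ := μ) h1 K] with i b1 b2 b3
  have := (a.iff _).mpr b1
  exact ⟨this, by rw [split this, b3]; linarith⟩

theorem Adm.key (a : Adm μ) {ι : Type} {l : Filter ι} {G H : ι → E} {g h : E}
    (h1 : ∀ n, ∀ᶠ i in l, (G i).1 n = g.1 n) (h2 : ∀ n, ∀ᶠ i in l, (H i).1 n = h.1 n)
    (h3 : Tendsto (fun i => φ μ (G i)) l (𝓝 (φ μ g)))
    (h4 : Tendsto (fun i => φ μ (H i)) l (𝓝 (φ μ h))) :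
    (∀ n, ∀ᶠ i in l, (comp (G i) (H i)).1 n = (comp g h).1 n) ∧
      Tendsto (fun i => φ μ (comp (G i) (H i))) l (𝓝 (φ μ (comp g h))) := by
  have h5 : ∀ n, ∀ᶠ i in l, (comp (G i) (H i)).1 n = (comp g h).1 n := by
    intro n
    filter_upwards [h2 n, h1 (h.1 n)] with i b1 b2
    simp only [comp, Function.comp, b1, b2]
  refine ⟨h5, ?_⟩
  have neg : ∀ {G : ι → E} {g : E}, Tendsto (fun i => φ μ (G i)) l (𝓝 (φ μ g)) →
      ¬ Summable (d μ g) → ∀ᶠ i in l, ¬ Summable (d μ (G i)) := by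
    intro G g h3 hg
    have : φ μ g < -1 / 2 := by rw [φ, if_neg hg]; norm_num
    filter_upwards [h3.eventually (gt_mem_nhds this)] with i hi
    rw [a.iff]; linarith
  by_cases hs : Summable (d μ g) ∧ Summable (d μ h)
  · rw [Metric.tendsto_nhds]
    intro ε hε
    have e0 : 0 < min (ε / 6) (1 / 4) := by positivity
    obtain ⟨K, k1, k2⟩ := (((tendsto_sum_nat_add (d μ g)).eventually (gt_mem_nhds e0)).and
      ((tendsto_sum_nat_add (d μ h)).eventually (gt_mem_nhds e0))).exists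
    filter_upwards [a.evt h1 h3 hs.1 k1, a.evt h2 h4 hs.2 k2, evs (μ := μ) h5 K] with i b1 b2 b3
    rw [lt_min_iff] at k1 k2 b1 b2
    obtain ⟨c1, c2⟩ := a.tail hs.1 hs.2 k2.2
    obtain ⟨c3, c4⟩ := a.tail b1.1 b2.1 b2.2.2
    have c5 : 0 ≤ ∑' n, d μ (comp g h) (n + K) := tsum_nonneg fun n => a.d0 _ _
    have c6 : 0 ≤ ∑' n, d μ (comp (G i) (H i)) (n + K) := tsum_nonneg fun n => a.d0 _ _
    rw [split c1] at c2 c5
    rw [split c3, b3] at c4 c6
    rw [Real.dist_eq, abs_lt]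
    constructor <;> linarith [k1.1, k2.1, b1.2.1, b2.2.1]
  · have e : φ μ (comp g h) = -1 := if_neg fun h' => hs (a.fac h')
    rw [e]
    apply tendsto_const_nhds.congr'
    rcases not_and_or.mp hs with hs | hs
    · filter_upwards [neg h3 hs] with i hi
      exact (if_neg fun h' => hi (a.fac h').1).symm
    · filter_upwards [neg h4 hs] with i hi
      exact (if_neg fun h' => hi (a.fac h').2).symm

abbrev P := {f : ℕ → ℕ // StrictMono f}

noncomputable def top (μ : ℕ → ℝ) : TopologicalSpace E :=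
  TopologicalSpace.induced (fun h : E => ((h, φ μ h) : P × ℝ)) inferInstance

theorem tend {ι : Type} {l : Filter ι} {G : ι → E} {g : E} :
    Tendsto G l (@nhds E (top μ) g) ↔ (∀ n, ∀ᶠ i in l, (G i).1 n = g.1 n) ∧
      Tendsto (fun i => φ μ (G i)) l (𝓝 (φ μ g)) := by
  unfold top
  rw [nhds_induced, tendsto_comap_iff, Prod.tendsto_iff]
  refine and_congr ?_ Iff.rfl
  rw [tendsto_subtype_rng, tendsto_pi_nhds]
  simp only [nhds_discrete, tendsto_pure, Function.comp]

theorem Adm.graph (a : Adm μ) (h : E) (r : ℝ) : φ μ h = r ↔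
    ((∀ K, ∑ n ∈ range K, d μ h n ≤ r) ∧
      ∀ j : ℕ, ∃ K, r - 1 / (j + 1) < ∑ n ∈ range K, d μ h n) ∨
    (r = -1 ∧ ∀ j : ℕ, ∃ K, (j : ℝ) < ∑ n ∈ range K, d μ h n) := by
  constructor
  · rintro rfl
    by_cases hs : Summable (d μ h)
    · left
      rw [φ, if_pos hs]
      refine ⟨fun K => hs.sum_le_tsum _ fun i _ => a.d0 h i, fun j => ?_⟩
      exact (hs.hasSum.tendsto_sum_nat.eventually (lt_mem_nhds (sub_lt_self _
        (by positivity)))).exists
    · right
      refine ⟨if_neg hs, fun j => ?_⟩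
      exact (((not_summable_iff_tendsto_nat_atTop_of_nonneg (a.d0 h)).mp hs).eventually_gt_atTop
        _).exists
  · rintro (⟨b1, b2⟩ | ⟨b1, b2⟩)
    · have hs := summable_of_sum_range_le (a.d0 h) b1
      rw [φ, if_pos hs]
      apply le_antisymm (Real.tsum_le_of_sum_range_le (a.d0 h) b1)
      apply le_of_forall_pos_le_add
      intro ε hε
      obtain ⟨j, hj⟩ := exists_nat_one_div_lt hε
      obtain ⟨K, hK⟩ := b2 j
      have := hs.sum_le_tsum (range K) fun i _ => a.d0 h i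
      linarith
    · rw [b1]
      refine if_neg fun hs => ?_
      obtain ⟨j, hj⟩ := exists_nat_gt (∑' n, d μ h n)
      obtain ⟨K, hK⟩ := b2 j
      have := hs.sum_le_tsum (range K) fun i _ => a.d0 h i
      linarith

theorem Adm.pst (a : Adm μ) : IsPST (top μ) := by
  constructor
  · have : PolishSpace P := IsClosed.polishSpace (s := {f : ℕ → ℕ | StrictMono f}) (by
      simp only [StrictMono, Set.ofPred_forall]
      refine isClosed_iInter fun x => isClosed_iInter fun y => isClosed_iInter fun _ => ?_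
      exact isClosed_le (f := fun f : ℕ → ℕ => f x + 1) (by fun_prop) (continuous_apply y))
    have cP : ∀ K, Continuous fun p : P × ℝ => ∑ n ∈ range K, d μ p.1 n := by
      intro K
      refine continuous_finsetSum _ fun n _ => continuous_const.mul (Continuous.sub ?_
        continuous_const)
      exact (continuous_of_discreteTopology (f := fun m : ℕ => (m : ℝ))).comp
        ((continuous_apply n).comp (continuous_subtype_val.comp continuous_fst))
    have hG : IsGδ {p : P × ℝ | φ μ p.1 = p.2} := by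
      simp only [a.graph, Set.ofPred_or, Set.ofPred_and, Set.ofPred_forall, Set.ofPred_exists]
      refine IsGδ.union (IsGδ.inter ?_ ?_) (IsGδ.inter ?_ ?_)
      · exact (isClosed_iInter fun K => isClosed_le (cP K) continuous_snd).isGδ
      · exact IsGδ.iInter fun j => (isOpen_iUnion fun K =>
          isOpen_lt (continuous_snd.sub continuous_const) (cP K)).isGδ
      · exact (isClosed_eq continuous_snd continuous_const).isGδ
      · exact IsGδ.iInter fun j => (isOpen_iUnion fun K => isOpen_lt continuous_const (cP K)).isGδ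
    have := gdelta hG
    let e : E ≃ {p : P × ℝ | φ μ p.1 = p.2} :=
      ⟨fun h => ⟨(h, φ μ h), rfl⟩, fun p => p.1.1, fun _ => rfl,
        fun p => Subtype.ext (Prod.ext rfl p.2)⟩
    have h2 := e.polishSpace_induced
    have h3 : TopologicalSpace.induced e instTopologicalSpaceSubtype = top μ :=
      induced_compose
    rwa [h3] at h2
  · let := top μ
    rw [continuous_iff_continuousAt]
    rintro ⟨g, h⟩
    have b1 := tend.mp (continuous_fst.tendsto (g, h))
    have b2 := tend.mp (continuous_snd.tendsto (g, h))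
    exact tend.mpr (a.key b1.1 b2.1 b1.2 b2.2)

noncomputable def mu (α : ℝ) (n : ℕ) : ℝ := ((n : ℝ) + 1) ^ (-(1 + α))

theorem adm {α : ℝ} (h0 : 0 < α) (h1 : α < 1) : Adm (mu α) := by
  constructor
  · intro m
    have : (1 : ℝ) ≤ m + 1 := by linarith [Nat.cast_nonneg (α := ℝ) m]
    rw [one_div, ← Real.rpow_natCast, ← Real.rpow_neg (by positivity)]
    exact Real.rpow_le_rpow_of_exponent_le this (by push_cast; linarith)
  · intro n m hm
    have b1 : (m : ℝ) + 1 ≤ 2 * (n + 1) := by exact_mod_cast (show m + 1 ≤ 2 * (n + 1) by omega)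
    have b2 : (2 * ((n : ℝ) + 1)) ^ (-(1 + α)) ≤ mu α m :=
      Real.rpow_le_rpow_of_nonpos (by positivity) b1 (by linarith)
    rw [Real.mul_rpow (by norm_num) (by positivity)] at b2
    have b3 : (2 : ℝ) ^ (-(2 : ℝ)) ≤ 2 ^ (-(1 + α)) :=
      Real.rpow_le_rpow_of_exponent_le (by norm_num) (by linarith)
    have b4 : (2 : ℝ) ^ (-(2 : ℝ)) = 1 / 4 := by
      rw [Real.rpow_neg (by norm_num), Real.rpow_two]; norm_num
    have b5 : 0 ≤ ((n : ℝ) + 1) ^ (-(1 + α)) := by positivity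
    unfold mu at b2 ⊢
    rw [b4] at b3
    have b6 := mul_le_mul_of_nonneg_right b3 b5
    linarith

noncomputable def hh (β : Set.Ioo (0 : ℝ) 1) : E :=
  ⟨fun n => n + ⌊((n : ℝ) + 1) ^ β.1⌋₊, StrictMono.add_monotone strictMono_id fun n m h =>
    Nat.floor_le_floor (Real.rpow_le_rpow (by positivity)
      (by exact_mod_cast Nat.succ_le_succ h) β.2.1.le)⟩

theorem dh (α : ℝ) (β : Set.Ioo (0 : ℝ) 1) (n : ℕ) :
    d (mu α) (hh β) n = ((n : ℝ) + 1) ^ (-(1 + α)) * ⌊((n : ℝ) + 1) ^ β.1⌋₊ := by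
  simp [d, mu, hh]

theorem sum_lt (α β : Set.Ioo (0 : ℝ) 1) (h : β.1 < α.1) : Summable (d (mu α.1) (hh β)) := by
  have h1 : Summable fun n : ℕ => ((n : ℝ)) ^ (-(1 + α.1) + β.1) :=
    Real.summable_nat_rpow.mpr (by linarith)
  refine ((summable_nat_add_iff 1).mpr h1).of_nonneg_of_le ((adm α.2.1 α.2.2).d0 _) fun n => ?_
  rw [dh]
  push_cast
  rw [Real.rpow_add (by positivity)]
  exact mul_le_mul_of_nonneg_left (Nat.floor_le (by positivity)) (by positivity)

theorem not_sum (α : Set.Ioo (0 : ℝ) 1) : ¬ Summable (d (mu α.1) (hh α)) := by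
  intro hs
  apply Real.not_summable_natCast_inv
  rw [← summable_nat_add_iff 1]
  refine (hs.mul_left 2).of_nonneg_of_le (fun n => by positivity) fun n => ?_
  rw [dh]
  push_cast
  have b0 : (1 : ℝ) ≤ n + 1 := by linarith [Nat.cast_nonneg (α := ℝ) n]
  have b1 : (1 : ℝ) ≤ ((n : ℝ) + 1) ^ α.1 := Real.one_le_rpow b0 α.2.1.le
  have b2 := Nat.lt_floor_add_one (((n : ℝ) + 1) ^ α.1)
  have b3 : (1 : ℝ) ≤ ⌊((n : ℝ) + 1) ^ α.1⌋₊ := by exact_mod_cast (Nat.one_le_floor_iff _).mpr b1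
  have b4 : ((n : ℝ) + 1)⁻¹ = ((n : ℝ) + 1) ^ (-(1 + α.1)) * ((n : ℝ) + 1) ^ α.1 := by
    rw [← Real.rpow_add (by positivity), ← Real.rpow_neg_one]; congr 1; ring
  have b5 : 0 ≤ ((n : ℝ) + 1) ^ (-(1 + α.1)) := by positivity
  rw [b4]
  nlinarith

theorem result : ¬ ∃ T : TopologicalSpace E, IsPST T ∧
    ∀ T' : TopologicalSpace E, IsPST T' → ∀ U : Set E, IsOpen[T'] U → IsOpen[T] U := by
  rintro ⟨T, ⟨hT, -⟩, hf⟩
  have ho : ∀ α : Set.Ioo (0 : ℝ) 1, IsOpen[T] {h | φ (mu α.1) h < -1 / 2} := fun α =>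
    hf _ (adm α.2.1 α.2.2).pst _ ⟨{p | p.2 < -1 / 2},
      isOpen_lt continuous_snd continuous_const, rfl⟩
  have hm : ∀ α : Set.Ioo (0 : ℝ) 1, hh α ∈ {h | φ (mu α.1) h < -1 / 2} := fun α => by
    rw [Set.mem_ofPred_eq, φ, if_neg (not_sum α)]; norm_num
  choose B B1 B2 B3 using fun α =>
    (TopologicalSpace.isBasis_countableBasis E).exists_subset_of_mem_open (hm α) (ho α)
  have lt : ∀ α β : Set.Ioo (0 : ℝ) 1, β.1 < α.1 → B α ≠ B β := by
    intro α β h e
    have b1 := B3 α (e ▸ B2 β)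
    have b2 := ((adm α.2.1 α.2.2).iff _).mp (sum_lt α β h)
    exact lt_asymm b1 b2
  have inj : Function.Injective B := by
    intro α β e
    by_contra hne
    rcases lt_or_gt_of_ne (fun h => hne (Subtype.ext h) : α.1 ≠ β.1) with h | h
    · exact lt β α h e.symm
    · exact lt α β h e
  have c1 : (Set.univ : Set (Set.Ioo (0 : ℝ) 1)).Countable :=
    (TopologicalSpace.countable_countableBasis E).preimage_of_injOn inj.injOn |>.mono
      fun α _ => B1 α
  have c2 : (Set.Ioo (0 : ℝ) 1).Countable := Set.countable_coe_iff.mp (Set.countable_univ_iff.mp c1)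
  have c3 := c2.measure_zero MeasureTheory.volume
  simp at c3

end Pool.Agent.Results.MP_0c7c8f_al.NoFinest
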